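import Mathlib

/-! The formal Morse lemma in two variables: a power series with leading form `u v` is `u v` in
suitable formal coordinates. -/

set_option autoImplicit false

namespace Pool.Agent.TH508.NB

open MvPowerSeries

variable {F : Type*} [Field F]

/-- `f` has order at least `n` -/
def O (n : ℕ) (f : MvPowerSeries (Fin 2) F) : Prop :=
  ∀ d : Fin 2 →₀ ℕ, d.degree < n → coeff d f = 0

theorem O.mono {n m : ℕ} (h : m ≤ n) {f : MvPowerSeries (Fin 2) F} (hf : O n f) : O m f :=
  fun d hd => hf d (by omega)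

theorem O.add {n : ℕ} {f g : MvPowerSeries (Fin 2) F} (hf : O n f) (hg : O n g) : O n (f + g) := by
  intro d hd
  rw [map_add, hf d hd, hg d hd, add_zero]

theorem O.neg {n : ℕ} {f : MvPowerSeries (Fin 2) F} (hf : O n f) : O n (-f) := by
  intro d hd
  rw [map_neg, hf d hd, neg_zero]

theorem O.sub {n : ℕ} {f g : MvPowerSeries (Fin 2) F} (hf : O n f) (hg : O n g) : O n (f - g) := by
  intro d hd
  rw [map_sub, hf d hd, hg d hd, sub_zero]

theorem O.mul {n m : ℕ} {f g : MvPowerSeries (Fin 2) F} (hf : O n f) (hg : O m g) :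
    O (n + m) (f * g) := by
  classical
  intro d hd
  rw [coeff_mul]
  refine Finset.sum_eq_zero fun p hp => ?_
  have hp := Finset.HasAntidiagonal.mem_antidiagonal.1 hp
  have h1 : p.1.degree + p.2.degree = d.degree := by rw [← hp, map_add]
  rcases lt_or_ge p.1.degree n with h | h
  · rw [hf _ h, zero_mul]
  · rw [hg p.2 (by omega), mul_zero]

theorem O_zero (f : MvPowerSeries (Fin 2) F) : O 0 f := fun d hd => absurd hd (by omega)

theorem O.mul_left {n : ℕ} {f g : MvPowerSeries (Fin 2) F} (hg : O n g) : O n (f * g) := by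
  simpa using (O_zero f).mul hg

theorem O.mul_right {n : ℕ} {f g : MvPowerSeries (Fin 2) F} (hf : O n f) : O n (f * g) := by
  simpa using hf.mul (O_zero g)

theorem O_X (i : Fin 2) : O 1 (X i : MvPowerSeries (Fin 2) F) := by
  classical
  intro d hd
  have : d = 0 := by
    rw [← Finsupp.degree_eq_zero_iff]
    omega
  rw [this, coeff_X, if_neg]
  intro h
  have := congrArg (fun f => f i) h
  simp at this

theorem eq_zero_of_O {f : MvPowerSeries (Fin 2) F} (h : ∀ n, O n f) : f = 0 := by
  ext d
  rw [h (d.degree + 1) d (by omega), map_zero]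

/-- splitting an element of positive order -/
theorem O.split {n : ℕ} {g : MvPowerSeries (Fin 2) F} (hg : O (n + 1) g) :
    ∃ α β : MvPowerSeries (Fin 2) F, O n α ∧ O n β ∧ g = X 0 * α + X 1 * β := by
  classical
  let α : MvPowerSeries (Fin 2) F := fun d => coeff (d + Finsupp.single 0 1) g
  let β : MvPowerSeries (Fin 2) F := fun d => if d 0 = 0 then coeff (d + Finsupp.single 1 1) g
    else 0
  have hα : ∀ d, coeff d α = coeff (d + Finsupp.single 0 1) g := fun d => rfl
  have hβ : ∀ d, coeff d β = if d 0 = 0 then coeff (d + Finsupp.single 1 1) g else 0 :=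
    fun d => rfl
  refine ⟨α, β, ?_, ?_, ?_⟩
  · intro d hd
    rw [hα]
    apply hg
    rw [map_add, Finsupp.degree_single]
    omega
  · intro d hd
    rw [hβ]
    split_ifs
    · apply hg
      rw [map_add, Finsupp.degree_single]
      omega
    · rfl
  · ext d
    have hX : ∀ (i : Fin 2) (h : MvPowerSeries (Fin 2) F), coeff d (X i * h) =
        if 1 ≤ d i then coeff (d - Finsupp.single i 1) h else 0 := by
      intro i h
      have h1 := coeff_monomial_mul (m := d) (n := Finsupp.single i 1) (φ := h) (1 : F)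
      rw [← X_def] at h1
      rw [h1, one_mul]
      congr 1
      rw [Finsupp.single_le_iff]
    rw [map_add, hX, hX]
    rcases Nat.eq_zero_or_pos (d 0) with h0 | h0
    · rw [if_neg (by omega), zero_add]
      rcases Nat.eq_zero_or_pos (d 1) with h1 | h1
      · rw [if_neg (by omega)]
        apply hg
        have : d = 0 := by
          ext i
          fin_cases i
          · exact h0
          · exact h1
        rw [this, map_zero]
        omega
      · rw [if_pos (by omega), hβ, if_pos (by
          rw [Finsupp.tsub_apply, h0]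
          simp)]
        congr 1
        rw [tsub_add_cancel_of_le]
        rw [Finsupp.single_le_iff]
        omega
    · rw [if_pos (by omega), hα]
      rw [tsub_add_cancel_of_le (by rw [Finsupp.single_le_iff]; omega)]
      by_cases h1 : 1 ≤ d 1
      · rw [if_pos h1, hβ, if_neg (by
          rw [Finsupp.tsub_apply, Finsupp.single_apply, if_neg (by decide)]
          omega), add_zero]
      · rw [if_neg h1, add_zero]

/-- limits of sequences with increasing precision -/
theorem exists_limit (s : ℕ → MvPowerSeries (Fin 2) F) (h : ∀ m, O (m + 1) (s (m + 1) - s m)) :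
    ∃ l, ∀ m, O (m + 1) (l - s m) := by
  let l : MvPowerSeries (Fin 2) F := fun d => coeff d (s d.degree)
  have hl : ∀ d, coeff d l = coeff d (s d.degree) := fun d => rfl
  refine ⟨l, fun m d hd => ?_⟩
  have h1 : ∀ k, coeff d (s (d.degree + k)) = coeff d (s d.degree) := by
    intro k
    induction k with
    | zero => rfl
    | succ k ih =>
      have h2 := h (d.degree + k) d (by omega)
      rw [map_sub, sub_eq_zero] at h2
      rw [← add_assoc, h2, ih]
  obtain ⟨k, hk⟩ := Nat.exists_eq_add_of_le (show d.degree ≤ m by omega)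
  rw [map_sub, hl, hk, h1, sub_self]

theorem morse_step {f U V : MvPowerSeries (Fin 2) F} {n : ℕ} (hn : 2 ≤ n)
    (hU : O 2 (U - X 0)) (hV : O 2 (V - X 1)) (h : O (n + 1) (f - U * V)) :
    ∃ δ ε, O n δ ∧ O n ε ∧ O (n + 2) (f - (U + δ) * (V + ε)) := by
  obtain ⟨α, β, hα, hβ, hg⟩ := h.split
  refine ⟨β, α, hβ, hα, ?_⟩
  have e : f - (U + β) * (V + α) = -((U - X 0) * α) - (V - X 1) * β - β * α := by
    have : f = U * V + (X 0 * α + X 1 * β) := by rw [← hg]; ring
    rw [this]; ring
  rw [e]
  refine O.sub (O.sub (O.neg ?_) ?_) ?_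
  · exact (hU.mul hα).mono (by omega)
  · exact (hV.mul hβ).mono (by omega)
  · exact (hβ.mul hα).mono (by omega)

/-- the factorisation -/
theorem morse_factor {f : MvPowerSeries (Fin 2) F} (hf : O 3 (f - X 0 * X 1)) :
    ∃ U V : MvPowerSeries (Fin 2) F, f = U * V ∧ O 2 (U - X 0) ∧ O 2 (V - X 1) := by
  classical
  let St (n : ℕ) := {p : MvPowerSeries (Fin 2) F × MvPowerSeries (Fin 2) F //
    O 2 (p.1 - X 0) ∧ O 2 (p.2 - X 1) ∧ O (n + 3) (f - p.1 * p.2)}
  have hstep : ∀ n (p : St n), ∃ q : St (n + 1), O (n + 2) (q.1.1 - p.1.1) ∧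
      O (n + 2) (q.1.2 - p.1.2) := by
    rintro n ⟨⟨U, V⟩, hU, hV, h⟩
    obtain ⟨δ, ε, hδ, hε, h'⟩ := morse_step (n := n + 2) (by omega) hU hV h
    refine ⟨⟨(U + δ, V + ε), ?_, ?_, ?_⟩, ?_, ?_⟩
    · have : U + δ - X 0 = (U - X 0) + δ := by ring
      simp only
      rw [this]
      exact hU.add (hδ.mono (by omega))
    · have : V + ε - X 1 = (V - X 1) + ε := by ring
      simp only
      rw [this]
      exact hV.add (hε.mono (by omega))
    · exact h'.mono (by omega)
    · simpa using hδ
    · simpa using hε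
  choose nx hnx using hstep
  let s : (n : ℕ) → St n := fun n => Nat.rec ⟨(X 0, X 1), by
    simp only [sub_self]; exact fun d _ => map_zero _, by
    simp only [sub_self]; exact fun d _ => map_zero _, hf⟩ (fun n p => nx n p) n
  have hs : ∀ n, s (n + 1) = nx n (s n) := fun n => rfl
  obtain ⟨U, hU⟩ := exists_limit (fun n => (s n).1.1) (fun m => by
    rw [hs]
    exact (hnx m (s m)).1.mono (by omega))
  obtain ⟨V, hV⟩ := exists_limit (fun n => (s n).1.2) (fun m => by
    rw [hs]
    exact (hnx m (s m)).2.mono (by omega))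
  refine ⟨U, V, ?_, ?_, ?_⟩
  · rw [← sub_eq_zero]
    apply eq_zero_of_O
    intro n
    have e : f - U * V = (f - (s n).1.1 * (s n).1.2) - (U - (s n).1.1) * V -
        (s n).1.1 * (V - (s n).1.2) := by ring
    rw [e]
    refine O.sub (O.sub ?_ ?_) ?_
    · exact (s n).2.2.2.mono (by omega)
    · exact ((hU n).mono (by omega)).mul_right
    · exact ((hV n).mono (by omega)).mul_left
  · have e : U - X 0 = (U - (s 1).1.1) + ((s 1).1.1 - X 0) := by ring
    rw [e]
    exact (hU 1).add (s 1).2.1
  · have e : V - X 1 = (V - (s 1).1.2) + ((s 1).1.2 - X 1) := by ring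
    rw [e]
    exact (hV 1).add (s 1).2.2.1

theorem constantCoeff_eq_of_O {U : MvPowerSeries (Fin 2) F} {i : Fin 2} (hU : O 2 (U - X i)) :
    constantCoeff U = 0 := by
  have h := hU 0 (by simp)
  rw [map_sub, coeff_zero_eq_constantCoeff_apply, coeff_zero_eq_constantCoeff_apply,
    constantCoeff_X, sub_zero] at h
  exact h

/-- substitutions tangent to the identity -/
theorem hom_tangent (σ : MvPowerSeries (Fin 2) F →ₐ[F] MvPowerSeries (Fin 2) F)
    (h0 : O 2 (σ (X 0) - X 0)) (h1 : O 2 (σ (X 1) - X 1)) (n : ℕ) :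
    ∀ g, O n g → O (n + 1) (σ g - g) := by
  have hX0 : O 1 (σ (X 0)) := by
    have := (h0.mono (show 1 ≤ 2 by omega)).add (O_X (F := F) 0)
    simpa using this
  have hX1 : O 1 (σ (X 1)) := by
    have := (h1.mono (show 1 ≤ 2 by omega)).add (O_X (F := F) 1)
    simpa using this
  induction n with
  | zero =>
    intro g _
    -- remove the constant term
    have hc : O 1 (g - C (constantCoeff g)) := by
      intro d hd
      have : d = 0 := by
        rw [← Finsupp.degree_eq_zero_iff]
        omega
      rw [this, coeff_zero_eq_constantCoeff_apply, map_sub, constantCoeff_C, sub_self]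
    obtain ⟨α, β, -, -, hg⟩ := O.split (n := 0) hc
    have e : g = algebraMap F _ (constantCoeff g) + (X 0 * α + X 1 * β) := by
      rw [← hg]
      show g = C _ + _
      ring
    have e2 : σ g - g = (σ (X 0) * σ α + σ (X 1) * σ β) - (X 0 * α + X 1 * β) := by
      conv_lhs => rw [e]
      rw [map_add, σ.commutes, map_add, map_mul, map_mul]
      ring
    rw [e2]
    exact ((hX0.mul_right).add hX1.mul_right).sub ((O_X 0).mul_right.add (O_X 1).mul_right)
  | succ n ih =>
    intro g hg
    obtain ⟨α, β, hα, hβ, hg'⟩ := hg.split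
    have e2 : σ g - g = (σ (X 0) - X 0) * σ α + X 0 * (σ α - α) +
        ((σ (X 1) - X 1) * σ β + X 1 * (σ β - β)) := by
      rw [hg', map_add, map_mul, map_mul]
      ring
    have hα' : O n (σ α) := by
      have := ((ih α hα).mono (show n ≤ n + 1 by omega)).add hα
      simpa using this
    have hβ' : O n (σ β) := by
      have := ((ih β hβ).mono (show n ≤ n + 1 by omega)).add hβ
      simpa using this
    rw [e2]
    refine ((O.mul h0 hα').mono (by omega) |>.add ?_).add ((O.mul h1 hβ').mono (by omega) |>.add ?_)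
    · exact ((O_X 0).mul (ih α hα)).mono (by omega)
    · exact ((O_X 1).mul (ih β hβ)).mono (by omega)

/-- substitutions tangent to the identity are invertible -/
theorem exists_equiv {U V : MvPowerSeries (Fin 2) F} (hU : O 2 (U - X 0)) (hV : O 2 (V - X 1)) :
    ∃ Ψ : MvPowerSeries (Fin 2) F ≃ₐ[F] MvPowerSeries (Fin 2) F, Ψ U = X 0 ∧ Ψ V = X 1 ∧
      ∀ n g, O n g → O (n + 1) (Ψ g - g) := by
  have hsub : HasSubst (![U, V] : Fin 2 → MvPowerSeries (Fin 2) F) := by
    apply hasSubst_of_constantCoeff_zero
    intro i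
    fin_cases i
    · exact constantCoeff_eq_of_O hU
    · exact constantCoeff_eq_of_O hV
  let σ : MvPowerSeries (Fin 2) F →ₐ[F] MvPowerSeries (Fin 2) F := substAlgHom hsub
  have hσ0 : σ (X 0) = U := (substAlgHom_X hsub 0).trans rfl
  have hσ1 : σ (X 1) = V := (substAlgHom_X hsub 1).trans rfl
  have hT := hom_tangent σ (by rw [hσ0]; exact hU) (by rw [hσ1]; exact hV)
  have hO : ∀ n g, O n (σ g) → O n g := by
    intro n
    induction n with
    | zero => intro g _; exact O_zero g
    | succ n ih =>
      intro g hg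
      have h1 := ih g (hg.mono (by omega))
      have h2 := hT n g h1
      have := hg.sub h2
      simpa using this
  have hinj : Function.Injective σ := by
    rw [injective_iff_map_eq_zero]
    intro g hg
    apply eq_zero_of_O
    intro n
    apply hO
    rw [hg]
    exact fun d _ => map_zero _
  have hO' : ∀ n g, O n g → O n (σ g) := by
    intro n g hg
    have := ((hT n g hg).mono (show n ≤ n + 1 by omega)).add hg
    simpa using this
  have hsurj : Function.Surjective σ := by
    intro g
    let s : ℕ → MvPowerSeries (Fin 2) F := fun n => Nat.rec 0 (fun _ h => h + (g - σ h)) n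
    have hs : ∀ n, s (n + 1) = s n + (g - σ (s n)) := fun n => rfl
    have hs2 : ∀ n, O n (g - σ (s n)) := by
      intro n
      induction n with
      | zero => exact O_zero _
      | succ n ih =>
        have e : g - σ (s (n + 1)) = -(σ (g - σ (s n)) - (g - σ (s n))) := by
          rw [hs, map_add]
          ring
        rw [e]
        exact (hT n _ ih).neg
    obtain ⟨l, hl⟩ := exists_limit (fun n => s (n + 1)) (fun m => by
      rw [hs (m + 1)]
      have := hs2 (m + 1)
      simpa using this)
    refine ⟨l, ?_⟩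
    rw [eq_comm, ← sub_eq_zero]
    apply eq_zero_of_O
    intro n
    have e : g - σ l = (g - σ (s (n + 1))) - σ (l - s (n + 1)) := by
      rw [map_sub]
      ring
    rw [e]
    exact ((hs2 (n + 1)).mono (by omega)).sub (hO' _ _ ((hl n).mono (by omega)))
  let e := AlgEquiv.ofBijective σ ⟨hinj, hsurj⟩
  have he : ∀ g, σ (e.symm g) = g := fun g => e.apply_symm_apply g
  refine ⟨e.symm, ?_, ?_, ?_⟩
  · apply hinj
    rw [he, hσ0]
  · apply hinj
    rw [he, hσ1]
  · intro n g hg
    have h1 : O n (e.symm g) := hO n _ (by rw [he]; exact hg)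
    have h2 := (hT n _ h1).neg
    rw [he] at h2
    simpa using h2

/-- **The formal Morse lemma.** -/
theorem morse {f : MvPowerSeries (Fin 2) F} (hf : O 3 (f - X 0 * X 1)) :
    ∃ Ψ : MvPowerSeries (Fin 2) F ≃ₐ[F] MvPowerSeries (Fin 2) F, Ψ f = X 0 * X 1 ∧
      ∀ n g, O n g → O (n + 1) (Ψ g - g) := by
  obtain ⟨U, V, hUV, hU, hV⟩ := morse_factor hf
  obtain ⟨Ψ, h0, h1, h2⟩ := exists_equiv hU hV
  exact ⟨Ψ, by rw [hUV, map_mul, h0, h1], h2⟩

end Pool.Agent.TH508.NB
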